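import Mathlib

set_option autoImplicit false

open NNReal

universe u

namespace Pool.Agent.Results.MP_6117a1_gt.Counter

/-- `(Y, ρ)` is a nonempty metric space. -/
def IsMetric (Y : Type u) (ρ : Y → Y → ℝ≥0) : Prop :=
  Nonempty Y ∧ (∀ x y, ρ x y = 0 ↔ x = y) ∧ (∀ x y, ρ x y = ρ y x) ∧
    ∀ x y z, ρ x z ≤ ρ x y + ρ y z

/-- The set `P_X` of the functions preserving the class `X`. -/
def P (X : ∀ Y : Type u, (Y → Y → ℝ≥0) → Prop) : Set (ℝ≥0 → ℝ≥0) :=
  {f | ∀ (Y : Type u) (ρ : Y → Y → ℝ≥0), X Y ρ → X Y fun x y => f (ρ x y)}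

/-- The bijections fixing `0`. -/
def A : Submonoid (Function.End ℝ≥0) where
  carrier := {f | Function.Bijective f ∧ f 0 = 0}
  one_mem' := ⟨Function.bijective_id, rfl⟩
  mul_mem' := fun {f g} hf hg => ⟨hf.1.comp hg.1, by
    show f (g 0) = 0
    rw [hg.2, hf.2]⟩

lemma swap_mem {a b : ℝ≥0} (ha : a ≠ 0) (hb : b ≠ 0) :
    ((Equiv.swap a b : ℝ≥0 → ℝ≥0) : Function.End ℝ≥0) ∈ A :=
  ⟨(Equiv.swap a b).bijective, Equiv.swap_apply_of_ne_of_ne ha.symm hb.symm⟩

theorem result : ∃ A : Submonoid (Function.End ℝ≥0), (∀ f ∈ A, ∀ x, f x = 0 ↔ x = 0) ∧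
    ∀ X : ∀ Y : Type u, (Y → Y → ℝ≥0) → Prop, (∀ Y ρ, X Y ρ → IsMetric Y ρ) →
      P X ≠ (A : Set (Function.End ℝ≥0)) := by
  refine ⟨A, fun f hf x => ⟨fun h => hf.1.1 (h.trans hf.2.symm), fun h => h ▸ hf.2⟩, ?_⟩
  intro X hX hP
  have hA : ∀ f : Function.End ℝ≥0, f ∈ A → f ∈ P X := fun f hf => by rw [hP]; exact hf
  -- one side of a triangle is equal to one of the two others
  have key : ∀ Y ρ, X Y ρ → ∀ x y z, x ≠ z → ρ x z = ρ x y ∨ ρ x z = ρ y z := by
    intro Y ρ h x y z hxz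
    by_contra hc
    push Not at hc
    obtain ⟨-, h0, hs, ht⟩ := hX Y ρ h
    have ha : ρ x z ≠ 0 := fun e => hxz ((h0 x z).1 e)
    set L := ρ x y + ρ y z + 1 with hL
    have hL0 : L ≠ 0 := by positivity
    have := (hX Y _ (hA _ (swap_mem ha hL0) Y ρ h)).2.2.2 x y z
    have e1 : ρ x y ≠ L := ne_of_lt (by rw [hL, add_assoc]; exact lt_add_of_pos_right _ (by positivity))
    have e2 : ρ y z ≠ L := ne_of_lt (by
      rw [hL, add_comm (ρ x y), add_assoc]; exact lt_add_of_pos_right _ (by positivity))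
    simp only [Equiv.swap_apply_left, Equiv.swap_apply_of_ne_of_ne hc.1.symm e1,
      Equiv.swap_apply_of_ne_of_ne hc.2.symm e2] at this
    exact absurd this (not_le.2 (lt_add_one _))
  have tri : ∀ Y ρ, X Y ρ → ∀ x y z, x ≠ y → x ≠ z → ρ x y = ρ x z := by
    intro Y ρ h x y z hxy hxz
    by_cases hyz : y = z
    · rw [hyz]
    have hs := (hX Y ρ h).2.2.1
    rcases key Y ρ h x y z hxz with e | e
    · exact e.symm
    rcases key Y ρ h x z y hxy with e' | e'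
    · exact e'
    rw [e, e', hs]
  have dis : ∀ Y ρ, X Y ρ → ∀ x y z w, x ≠ y → z ≠ w → ρ x y = ρ z w := by
    intro Y ρ h x y z w hxy hzw
    have hs := (hX Y ρ h).2.2.1
    by_cases hxz : x = z
    · subst hxz; exact tri Y ρ h x y w hxy hzw
    rw [tri Y ρ h x y z hxy hxz, hs, tri Y ρ h z x w (Ne.symm hxz) hzw]
  have hg : (fun t : ℝ≥0 => if t = 0 then (0 : ℝ≥0) else 1) ∈ P X := by
    intro Y ρ h
    have h0 := (hX Y ρ h).2.1
    by_cases hY : ∃ x y : Y, x ≠ y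
    · obtain ⟨x, y, hxy⟩ := hY
      have ha : ρ x y ≠ 0 := fun e => hxy ((h0 x y).1 e)
      convert hA _ (swap_mem ha one_ne_zero) Y ρ h using 3 with z w
      beta_reduce
      by_cases hzw : z = w
      · have : ρ z w = 0 := (h0 z w).2 hzw
        rw [this, if_pos rfl]
        exact (Equiv.swap_apply_of_ne_of_ne ha.symm one_ne_zero.symm).symm
      · rw [if_neg fun e => hzw ((h0 z w).1 e), dis Y ρ h z w x y hzw hxy]
        exact (Equiv.swap_apply_left _ _).symm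
    · push Not at hY
      convert h using 3 with z w
      beta_reduce
      rw [(h0 z w).2 (hY z w), if_pos rfl]
  rw [hP] at hg
  have := hg.1.1 (a₁ := 1) (a₂ := 2) (by simp)
  norm_num at this

end Pool.Agent.Results.MP_6117a1_gt.Counter
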